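import Mathlib

open Set Filter Topology MeasureTheory Metric Real

namespace Pool.Agent.Results.MP_395e41_an.Gap

/-- admissible controls: measurable, with values in `U` a.e. on `[0,∞)` -/
def Adm (U : Set ℝ) (u : ℝ → ℝ) : Prop := Measurable u ∧ ∀ᵐ t, 0 ≤ t → u t ∈ U

/-- `x` is a (Carathéodory) solution of `x' = f(x,u)`, `x(0) = x₀` on `[0,∞)` -/
def IsSol (f : ℝ → ℝ → ℝ) (u : ℝ → ℝ) (x₀ : ℝ) (x : ℝ → ℝ) : Prop :=
  ∀ t, 0 ≤ t → IntervalIntegrable (fun s => f (x s) (u s)) volume 0 t ∧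
    x t = x₀ + ∫ s in (0 : ℝ)..t, f (x s) (u s)

/-- `φ t x₀ u` is the unique solution, and it depends continuously on `x₀` -/
def IsSystem (f : ℝ → ℝ → ℝ) (U : Set ℝ) (φ : ℝ → ℝ → (ℝ → ℝ) → ℝ) : Prop :=
  ∀ u, Adm U u → (∀ x₀, IsSol f u x₀ (fun t => φ t x₀ u) ∧
    ∀ x, IsSol f u x₀ x → ∀ t, 0 ≤ t → x t = φ t x₀ u) ∧ ∀ t, 0 ≤ t → Continuous fun x₀ => φ t x₀ u

def IsKL (ζ : ℝ → ℝ → ℝ) : Prop :=
  ContinuousOn (fun p : ℝ × ℝ => ζ p.1 p.2) (Ici 0 ×ˢ Ici 0) ∧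
    (∀ s, 0 ≤ s → ζ 0 s = 0 ∧ StrictMonoOn (fun r => ζ r s) (Ici 0)) ∧
    ∀ r, 0 < r → StrictAntiOn (ζ r) (Ici 0) ∧ Tendsto (ζ r) atTop (𝓝 0)

/-- least size of a finite set of controls spanning with extra tolerance `η` -/
noncomputable def rank (U Γ Λ : Set ℝ) (φ : ℝ → ℝ → (ℝ → ℝ) → ℝ) (ζ : ℝ → ℝ → ℝ) (ε η τ : ℝ) :
    ENNReal :=
  ⨅ S : Finset (ℝ → ℝ), ⨅ _ : (∀ u ∈ S, Adm U u) ∧ ∀ x₀ ∈ Γ, ∃ u ∈ S, ∀ t ∈ Icc 0 τ,
    infDist (φ t x₀ u) Λ ≤ ζ (infDist x₀ Λ + ε) t + η, (S.card : ENNReal)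

/-- exponential growth rate -/
noncomputable def rate (r : ℝ → ENNReal) : EReal :=
  limsup (fun τ : ℝ => ENNReal.log (r τ) / (τ : EReal)) atTop

noncomputable def φ (t x₀ : ℝ) (u : ℝ → ℝ) : ℝ := x₀ + ∫ s in (0 : ℝ)..t, u s
noncomputable def ζ (r s : ℝ) : ℝ := r * exp (-s)

lemma ctl {y : ℝ} (hy : y ∈ Icc (0 : ℝ) 1) : Adm (Icc (-1) 1) (fun s => -y * exp (-s)) ∧
    ∀ t x, φ t x (fun s => -y * exp (-s)) = x - y + y * exp (-t) := by
  refine ⟨⟨by fun_prop, ae_of_all _ fun t ht => ?_⟩, fun t x => ?_⟩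
  · have := exp_le_one_iff.2 (neg_nonpos.2 ht)
    constructor <;> nlinarith [exp_pos (-t), hy.1, hy.2]
  · rw [φ, intervalIntegral.integral_const_mul, intervalIntegral.integral_comp_neg, integral_exp]
    simp; ring

lemma low {ε η τ : ℝ} (hτ : 0 ≤ τ) : ENNReal.ofReal (1 / (2 * ((1 + ε) * exp (-τ) + η))) ≤
    rank (Icc (-1) 1) (Icc 0 1) {0} φ ζ ε η τ := by
  refine le_iInf₂ fun S ⟨_, h⟩ => ?_
  set δ := (1 + ε) * exp (-τ) + η
  rcases le_or_gt δ 0 with d | d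
  · rw [ENNReal.ofReal_of_nonpos (one_div_nonpos.2 (by linarith))]; simp
  have : Icc (0 : ℝ) 1 ⊆ ⋃ u ∈ S, closedBall (-∫ s in (0 : ℝ)..τ, u s) δ := fun x hx => by
    obtain ⟨u, hu, k⟩ := h x hx
    have := k τ ⟨hτ, le_rfl⟩
    simp only [infDist_singleton, dist_zero_right, φ, ζ, Real.norm_eq_abs, abs_of_nonneg hx.1] at this
    refine mem_biUnion hu (mem_closedBall.2 ?_)
    rw [Real.dist_eq, sub_neg_eq_add]
    exact this.trans (by simp only [δ]; gcongr; exact hx.2)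
  have := (measure_mono (μ := volume) this).trans (measure_biUnion_finset_le _ _)
  simp only [Real.volume_Icc, Real.volume_closedBall, Finset.sum_const, nsmul_eq_mul, sub_zero] at this
  rw [ENNReal.ofReal_div_of_pos (by positivity)]
  exact ENNReal.div_le_of_le_mul this

lemma one_le (ε η : ℝ) {τ : ℝ} : 1 ≤ rank (Icc (-1) 1) (Icc 0 1) {0} φ ζ ε η τ :=
  le_iInf₂ fun S ⟨_, h⟩ => by
    obtain ⟨u, hu, -⟩ := h 0 (by simp)
    exact_mod_cast Finset.card_pos.2 ⟨u, hu⟩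

lemma ps {ε : ℝ} (hε : 0 < ε) : rate (rank (Icc (-1) 1) (Icc 0 1) {0} φ ζ ε ε) = 0 := by
  classical
  obtain ⟨n, hn⟩ := exists_nat_one_div_lt hε
  have up : ∀ τ, rank (Icc (-1) 1) (Icc 0 1) {0} φ ζ ε ε τ ≤ ENNReal.ofReal (n + 2) := fun τ => by
    have m : ∀ j ≤ n + 1, (j / (n + 1) : ℝ) ∈ Icc (0 : ℝ) 1 := fun j hj =>
      ⟨by positivity, (div_le_one (by positivity)).2 (by exact_mod_cast hj)⟩
    refine iInf₂_le_of_le ((Finset.range (n + 2)).image fun (j : ℕ) s => -(j / (n + 1) : ℝ) * exp (-s))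
      ⟨Finset.forall_mem_image.2 fun j hj => (ctl (m j (by simp at hj; omega))).1, fun x hx => ?_⟩ ?_
    · have l : ⌊x * (n + 1)⌋₊ ≤ n + 1 := Nat.floor_le_of_le (by push_cast; nlinarith [hx.2])
      refine ⟨_, Finset.mem_image_of_mem _ (Finset.mem_range.2 (Nat.lt_succ_of_le l)), fun t _ => ?_⟩
      have a : (⌊x * (n + 1)⌋₊ / (n + 1) : ℝ) ≤ x :=
        (div_le_iff₀ (by positivity)).2 (Nat.floor_le (by have := hx.1; positivity))
      have b : x < ⌊x * (n + 1)⌋₊ / (n + 1) + 1 / (n + 1) := by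
        rw [← add_div, lt_div_iff₀ (by positivity)]; exact Nat.lt_floor_add_one _
      have c := (m _ l).1
      rw [(ctl (m _ l)).2]
      simp only [infDist_singleton, dist_zero_right, ζ, Real.norm_eq_abs, abs_of_nonneg hx.1]
      rw [abs_of_nonneg (by nlinarith [exp_pos (-t)])]
      nlinarith [exp_pos (-t)]
    · rw [show (n + 2 : ℝ) = (n + 2 : ℕ) by simp, ENNReal.ofReal_natCast]
      exact_mod_cast Finset.card_image_le.trans (by simp)
  refine Tendsto.limsup_eq (tendsto_of_tendsto_of_tendsto_of_le_of_le' tendsto_const_nhds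
    (h := fun τ : ℝ => ((log (n + 2) / τ : ℝ) : EReal))
    (EReal.tendsto_coe.2 (tendsto_const_nhds.div_atTop tendsto_id)) ?_ ?_) <;>
    filter_upwards [eventually_gt_atTop 0] with τ hτ
  · exact EReal.div_nonneg (ENNReal.zero_le_log_iff.2 (one_le _ _)) (by exact_mod_cast hτ.le)
  · rw [EReal.coe_div, ← ENNReal.log_ofReal_of_pos (by positivity)]
    exact EReal.div_le_div_right_of_nonneg (by exact_mod_cast hτ.le) (ENNReal.log_le_log (up τ))

theorem result : ∃ (f : ℝ → ℝ → ℝ) (U Γ Λ : Set ℝ) (φ : ℝ → ℝ → (ℝ → ℝ) → ℝ) (ζ : ℝ → ℝ → ℝ),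
    IsCompact U ∧ IsCompact Γ ∧ IsCompact Λ ∧ Γ.Nonempty ∧ Λ.Nonempty ∧ IsSystem f U φ ∧ IsKL ζ ∧
    (∀ x₀ ∈ Γ, ∃ u, Adm U u ∧ ∀ t, 0 ≤ t → infDist (φ t x₀ u) Λ ≤ ζ (infDist x₀ Λ) t) ∧
    ∃ hps hs : EReal, Tendsto (fun ε => rate (rank U Γ Λ φ ζ ε ε)) (𝓝[>] 0) (𝓝 hps) ∧
      Tendsto (fun ε => rate (rank U Γ Λ φ ζ ε 0)) (𝓝[>] 0) (𝓝 hs) ∧ hps < hs := by
  refine ⟨fun _ v => v, Icc (-1) 1, Icc 0 1, {0}, φ, ζ, isCompact_Icc, isCompact_Icc, isCompact_singleton,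
    by simp, by simp, fun u hu => ⟨fun x => ⟨fun t ht => ⟨?_, rfl⟩, fun y h t ht => (h t ht).2⟩,
      fun t _ => by unfold φ; fun_prop⟩, ⟨by unfold ζ; fun_prop, fun s _ => ⟨by simp [ζ], fun a _ b _ h =>
      mul_lt_mul_of_pos_right h (exp_pos _)⟩, fun r hr => ⟨fun a _ b _ h =>
      mul_lt_mul_of_pos_left (exp_lt_exp.2 (neg_lt_neg h)) hr, by
        unfold ζ; simpa using tendsto_exp_neg_atTop_nhds_zero.const_mul r⟩⟩,
    fun x hx => ⟨_, (ctl hx).1, fun t _ => ?_⟩, 0, _,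
    tendsto_const_nhds.congr' (eventually_nhdsWithin_of_forall fun ε h => (ps h).symm),
    Antitone.tendsto_nhdsGT (fun a b h => limsup_le_limsup ?_) 0, ?_⟩
  · rw [intervalIntegrable_iff_integrableOn_Ioc_of_le ht]
    refine Measure.integrableOn_of_bounded (M := 1) (by simp) hu.1.aestronglyMeasurable ?_
    filter_upwards [ae_restrict_of_ae hu.2, ae_restrict_mem measurableSet_Ioc] with s a b
    exact abs_le.2 (a b.1.le)
  · rw [(ctl hx).2]; simp [ζ, abs_of_nonneg hx.1]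
  · filter_upwards [eventually_gt_atTop 0] with τ hτ
    refine EReal.div_le_div_right_of_nonneg (by exact_mod_cast hτ.le) (ENNReal.log_le_log
      (le_iInf₂ fun S hS => iInf₂_le S ⟨hS.1, fun x hx => (hS.2 x hx).imp fun u k =>
        ⟨k.1, fun t ht => (k.2 t ht).trans (by unfold ζ; gcongr)⟩⟩))
  · refine lt_of_lt_of_le (show (0 : EReal) < (1 / 2 : ℝ) by exact_mod_cast one_half_pos)
      (le_sSup_of_le ⟨1, mem_Ioi.2 one_pos, rfl⟩ (le_limsup_of_frequently_le' (Eventually.frequently ?_)))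
    filter_upwards [eventually_ge_atTop 6] with τ hτ
    refine le_trans ?_ (EReal.div_le_div_right_of_nonneg (by exact_mod_cast (by linarith))
      (ENNReal.log_le_log (low (by linarith))))
    rw [ENNReal.log_ofReal_of_pos (by positivity), ← EReal.coe_div, EReal.coe_le_coe_iff,
      le_div_iff₀ (by linarith), add_zero, one_div (2 * _), log_inv, ← mul_assoc,
      log_mul (by norm_num) (by positivity), log_exp]
    have := log_le_sub_one_of_pos (show (0 : ℝ) < 2 * (1 + 1) by norm_num)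
    generalize log _ = a at this ⊢; linarith

end Pool.Agent.Results.MP_395e41_an.Gap
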